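import Mathlib

/-!
# A poset with finite antichains, one-sided levels and fat points

The points `q n x h` form the levels (level `n`, height `h`, rank `x + h`); the points `d n b t z a` form
the fat points (position `(n, b, t)`, layer `z`, place `a` in the layer).
-/

set_option autoImplicit false

namespace Pool.Agent.Helper43.AK

/-- The points of the poset. -/
inductive Pt (m : ℕ) : Type
  | q (n x h : ℕ) : Pt m
  | d (n b t : ℕ) (z : ℤ) (a : Fin m) : Pt m

namespace Pt

variable {m : ℕ}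

/-- The strict order. -/
def L : Pt m → Pt m → Prop
  | q n x h, q n' x' h' => n' + 2 ≤ n ∨ (n = n' + 1 ∧ (h < h' ∨ x + h ≤ 2 * (x' + h'))) ∨
      (n = n' ∧ x + h < x' + h' ∧ h ≤ h')
  | q n x h, d k b t _ _ => k + 2 ≤ n ∨ (n = k + 1 ∧ (h + 1 < b ∨ (h + 1 = b ∧ x + h ≤ 2 * (t + 1))))
  | d k b t _ _, q n x h => n < k ∨ (n = k ∧ (b < h + 1 ∨ (b = h + 1 ∧ t < x + h)))
  | d k b t z _, d k' b' t' z' _ => k' < k ∨ (k = k' ∧ (b < b' ∨ (b = b' ∧ (t < t' ∨ (t = t' ∧ z < z')))))

lemma L_irrefl (p : Pt m) : ¬ L p p := by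
  cases p <;> simp only [L] <;> omega

lemma L_trans {p r s : Pt m} (h1 : L p r) (h2 : L r s) : L p s := by
  cases p <;> cases r <;> cases s <;> simp only [L] at h1 h2 ⊢ <;> omega

instance : PartialOrder (Pt m) where
  le p r := p = r ∨ L p r
  lt p r := L p r
  le_refl p := Or.inl rfl
  le_trans p r s h1 h2 := by
    rcases h1 with rfl | h1
    · exact h2
    · rcases h2 with rfl | h2
      · exact Or.inr h1
      · exact Or.inr (L_trans h1 h2)
  lt_iff_le_not_ge p r := by
    constructor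
    · intro h
      refine ⟨Or.inr h, ?_⟩
      rintro (h' | h')
      · subst h'
        exact L_irrefl _ h
      · exact L_irrefl _ (L_trans h h')
    · rintro ⟨h1 | h1, h2⟩
      · subst h1
        exact absurd (Or.inl rfl) h2
      · exact h1
  le_antisymm p r h1 h2 := by
    rcases h1 with h1 | h1
    · exact h1
    · rcases h2 with h2 | h2
      · exact h2.symm
      · exact absurd (L_trans h1 h2) (L_irrefl _)

lemma lt_qq {n x h n' x' h' : ℕ} : (q n x h : Pt m) < q n' x' h' ↔ n' + 2 ≤ n ∨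
    (n = n' + 1 ∧ (h < h' ∨ x + h ≤ 2 * (x' + h'))) ∨ (n = n' ∧ x + h < x' + h' ∧ h ≤ h') := Iff.rfl

lemma lt_qd {n x h k b t : ℕ} {z : ℤ} {a : Fin m} : (q n x h : Pt m) < d k b t z a ↔
    k + 2 ≤ n ∨ (n = k + 1 ∧ (h + 1 < b ∨ (h + 1 = b ∧ x + h ≤ 2 * (t + 1)))) := Iff.rfl

lemma lt_dq {n x h k b t : ℕ} {z : ℤ} {a : Fin m} : (d k b t z a : Pt m) < q n x h ↔
    n < k ∨ (n = k ∧ (b < h + 1 ∨ (b = h + 1 ∧ t < x + h))) := Iff.rfl

lemma lt_dd {k b t k' b' t' : ℕ} {z z' : ℤ} {a a' : Fin m} : (d k b t z a : Pt m) < d k' b' t' z' a' ↔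
    k' < k ∨ (k = k' ∧ (b < b' ∨ (b = b' ∧ (t < t' ∨ (t = t' ∧ z < z'))))) := Iff.rfl

lemma le_iff {p r : Pt m} : p ≤ r ↔ p = r ∨ p < r := Iff.rfl

/-- The code of a point. -/
def code : Pt m → (ℕ × ℕ × ℕ) ⊕ (ℕ × ℕ × ℕ × ℤ × Fin m)
  | q n x h => Sum.inl (n, x, h)
  | d n b t z a => Sum.inr (n, b, t, z, a)

lemma code_injective : Function.Injective (code : Pt m → _) := by
  intro p r h
  cases p <;> cases r <;> simp_all [code]

instance : Countable (Pt m) := code_injective.countable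

/-- The level of a point; a decreasing function. -/
def lev : Pt m → ℕ
  | q n _ _ => 2 * n
  | d n _ _ _ _ => 2 * n + 1

lemma lev_anti {p r : Pt m} (h : p < r) : lev r ≤ lev p := by
  cases p <;> cases r <;> simp only [lt_qq, lt_qd, lt_dq, lt_dd, lev] at h ⊢ <;> omega

lemma dd_of_incomp {k b t k' b' t' : ℕ} {z z' : ℤ} {a a' : Fin m}
    (h1 : ¬ (d k b t z a : Pt m) < d k' b' t' z' a') (h2 : ¬ (d k' b' t' z' a' : Pt m) < d k b t z a) :
    k = k' ∧ b = b' ∧ t = t' ∧ z = z' := by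
  rw [lt_dd] at h1 h2
  omega

/-- Every antichain is finite. -/
theorem finite_of_antichain {A : Set (Pt m)} (hA : IsAntichain (· ≤ ·) A) : A.Finite := by
  have hno : ∀ p ∈ A, ∀ r ∈ A, ¬ p < r := by
    intro p hp r hr h
    exact hA hp hr h.ne h.le
  have hD : {p ∈ A | ∃ n b t z a, p = d n b t z a}.Finite := by
    rcases Set.eq_empty_or_nonempty {p ∈ A | ∃ n b t z a, p = d n b t z a} with h0 | ⟨p, hp, n, b, t, z, a, rfl⟩
    · rw [h0]; exact Set.finite_empty
    · refine (Set.finite_range (fun a : Fin m => (d n b t z a : Pt m))).subset ?_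
      rintro r ⟨hr, n', b', t', z', a', rfl⟩
      obtain ⟨rfl, rfl, rfl, rfl⟩ := dd_of_incomp (hno _ hp _ hr) (hno _ hr _ hp)
      exact ⟨a', rfl⟩
  have hL : ∀ n, {p ∈ A | ∃ x h, p = q n x h}.Finite := by
    intro n
    rcases Set.eq_empty_or_nonempty {p ∈ A | ∃ x h, p = q n x h} with h0 | ⟨p, hp, x0, h0, rfl⟩
    · rw [h0]; exact Set.finite_empty
    · have hsub : {p ∈ A | ∃ x h, p = q n x h} ⊆
          ((fun y : ℕ × ℕ => (q n y.1 y.2 : Pt m)) ''
            ((Finset.range (x0 + h0 + 1) ×ˢ Finset.range (x0 + h0 + 1) : Finset (ℕ × ℕ)) : Set (ℕ × ℕ))) ∪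
          {p ∈ A | ∃ x h, p = q n x h ∧ h < h0} := by
        rintro r ⟨hr, x, h, rfl⟩
        by_cases hlt : h < h0
        · exact Or.inr ⟨hr, x, h, rfl, hlt⟩
        · refine Or.inl ⟨(x, h), ?_, rfl⟩
          have := hno _ hp _ hr
          rw [lt_qq] at this
          simp only [Finset.coe_product, Finset.coe_range, Set.mem_prod, Set.mem_Iio]
          omega
      refine Set.Finite.subset (Set.Finite.union (Set.Finite.image _ (Finset.finite_toSet _)) ?_) hsub
      refine Set.Finite.of_finite_image (f := fun p : Pt m => match p with | q _ _ h => h | d _ _ _ _ _ => 0) ?_ ?_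
      · refine (Set.finite_Iio h0).subset ?_
        rintro _ ⟨r, ⟨hr, x, h, rfl, hlt⟩, rfl⟩
        exact hlt
      · rintro r ⟨hr, x, h, rfl, hlt⟩ s ⟨hs, x', h', rfl, hlt'⟩ he
        simp only at he
        subst he
        have h1 := hno _ hr _ hs
        have h2 := hno _ hs _ hr
        rw [lt_qq] at h1 h2
        have : x = x' := by omega
        rw [this]
  rcases Set.eq_empty_or_nonempty {p ∈ A | ∃ n x h, p = q n x h} with h0 | ⟨p, hp, n0, x0, h0, rfl⟩
  · refine hD.subset ?_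
    intro p hp
    cases p with
    | q n x h =>
      exfalso
      have : (q n x h : Pt m) ∈ {p ∈ A | ∃ n x h, p = q n x h} := ⟨hp, n, x, h, rfl⟩
      rw [h0] at this
      exact this
    | d n b t z a => exact ⟨hp, n, b, t, z, a, rfl⟩
  · have hfin : (⋃ n ∈ (Finset.range (n0 + 2) : Set ℕ), {p ∈ A | ∃ x h, p = q n x h}).Finite :=
      Set.Finite.biUnion (Finset.finite_toSet _) (fun n _ => hL n)
    refine (hD.union hfin).subset ?_
    intro r hr
    cases r with
    | q n x h =>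
      refine Or.inr ?_
      have h1 := hno _ hp _ hr
      have h2 := hno _ hr _ hp
      rw [lt_qq] at h1 h2
      simp only [Set.mem_iUnion]
      refine ⟨n, ?_, hr, x, h, rfl⟩
      simp only [Finset.coe_range, Set.mem_Iio]
      omega
    | d n b t z a => exact Or.inl ⟨hr, n, b, t, z, a, rfl⟩

end Pt

end Pool.Agent.Helper43.AK
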