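import Pool.Agent.Helper43.AK.Basic

/-!
# No `k` chains and antichain partition as required, `k = m + 1`
-/

set_option autoImplicit false

namespace Pool.Agent.Helper43.AK

open Pt

/-- The situation to be refuted: `m + 1` disjoint chains and a partition (by the values of `g`) into
antichains such that the class of every point outside the chains meets all chains. -/
structure Bad (m : ℕ) (ι : Type) where
  /-- the chains -/
  C : Fin (m + 1) → Set (Pt m)
  /-- the class of a point -/
  g : Pt m → ι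
  chain : ∀ j, ∀ p ∈ C j, ∀ r ∈ C j, p = r ∨ p < r ∨ r < p
  disj : ∀ i j p, p ∈ C i → p ∈ C j → i = j
  anti : ∀ p r, g p = g r → ¬ p < r
  meet : ∀ p, (∀ j, p ∉ C j) → ∀ j, ∃ c ∈ C j, g c = g p

namespace Bad

variable {m : ℕ} {ι : Type} (B : Bad m ι)

/-- Two points of one layer in the same chain are equal. -/
lemma layer_inj {j : Fin (m + 1)} {k b t : ℕ} {z : ℤ} {a a' : Fin m}
    (h1 : d k b t z a ∈ B.C j) (h2 : d k b t z a' ∈ B.C j) : a = a' := by
  rcases B.chain j _ h1 _ h2 with h | h | h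
  · cases h; rfl
  · rw [lt_dd] at h; omega
  · rw [lt_dd] at h; omega

/-- The class of an uncovered point of a level contains a covered point of a level. -/
lemma exists_q {n x h : ℕ} (hp : ∀ j, q n x h ∉ B.C j) :
    ∃ j n' x' h', q n' x' h' ∈ B.C j ∧ B.g (q n' x' h') = B.g (q n x h) := by
  by_contra hcon
  push Not at hcon
  choose c hc hg using B.meet _ hp
  have hd : ∀ j, ∃ k b t z a, c j = d k b t z a := by
    intro j
    cases hcj : c j with
    | q n' x' h' =>
      exfalso
      refine hcon j n' x' h' ?_ ?_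
      · rw [← hcj]; exact hc j
      · rw [← hcj]; exact hg j
    | d k b t z a => exact ⟨k, b, t, z, a, rfl⟩
  choose k b t z a hka using hd
  have hinj : Function.Injective a := by
    intro i j hij
    have h1 : ¬ c i < c j := B.anti _ _ ((hg i).trans (hg j).symm)
    have h2 : ¬ c j < c i := B.anti _ _ ((hg j).trans (hg i).symm)
    have h1' := h1
    have h2' := h2
    rw [hka i, hka j] at h1' h2'
    obtain ⟨e1, e2, e3, e4⟩ := dd_of_incomp h1' h2'
    have : c i = c j := by rw [hka i, hka j, e1, e2, e3, e4, hij]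
    exact B.disj i j (c i) (hc i) (this ▸ hc j)
  have := Fintype.card_le_of_injective a hinj
  simp at this

/-- The point `q n x h` is incomparable with the fat point `(k, b, t)`. -/
def Inc (k b t n x h : ℕ) : Prop :=
  (n = k + 1 ∧ ¬ (h + 1 < b ∨ (h + 1 = b ∧ x + h ≤ 2 * (t + 1)))) ∨
    (n = k ∧ ¬ (b < h + 1 ∨ (b = h + 1 ∧ t < x + h)))

lemma inc_iff {k b t n x h : ℕ} {z : ℤ} {a : Fin m} : Inc k b t n x h ↔
    ¬ (q n x h : Pt m) < d k b t z a ∧ ¬ (d k b t z a : Pt m) < q n x h := by
  rw [lt_qd, lt_dq, Inc]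
  omega

/-- If two chains avoid a fat point, then each of them contains infinitely many points incomparable with it. -/
lemma infinite_of_avoid {i j : Fin (m + 1)} (hij : i ≠ j) {k b t n x h n' x' h' : ℕ}
    (hi : q n x h ∈ B.C i) (hi' : Inc k b t n x h) (hj : q n' x' h' ∈ B.C j) (hj' : Inc k b t n' x' h') :
    Set.Infinite {y : ℕ × ℕ × ℕ | q y.1 y.2.1 y.2.2 ∈ B.C j ∧ Inc k b t y.1 y.2.1 y.2.2} := by
  have hav : ∀ l n x h, q n x h ∈ B.C l → Inc k b t n x h → ∀ z a, d k b t z a ∉ B.C l := by
    intro l n x h h1 h2 z a h3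
    have h4 := (inc_iff (m := m) (z := z) (a := a)).1 h2
    rcases B.chain l _ h1 _ h3 with h | h | h
    · cases h
    · exact h4.1 h
    · exact h4.2 h
  have key : ∀ z : ℤ, ∃ y : ℕ × ℕ × ℕ, ∃ a : Fin m, (q y.1 y.2.1 y.2.2 ∈ B.C j ∧ Inc k b t y.1 y.2.1 y.2.2) ∧
      B.g (q y.1 y.2.1 y.2.2) = B.g (d k b t z a) := by
    intro z
    have hun : ∃ a, ∀ l, d k b t z a ∉ B.C l := by
      by_contra hcon
      push Not at hcon
      choose f hf using hcon
      have hinj : Function.Injective f := by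
        intro a a' haa
        refine B.layer_inj (hf a) ?_
        rw [haa]
        exact hf a'
      have h1 : (Finset.univ.image f) ⊆ (Finset.univ.erase i).erase j := by
        intro l hl
        obtain ⟨a, -, rfl⟩ := Finset.mem_image.1 hl
        refine Finset.mem_erase.2 ⟨?_, Finset.mem_erase.2 ⟨?_, Finset.mem_univ _⟩⟩
        · intro he
          exact hav j _ _ _ hj hj' z a (he ▸ hf a)
        · intro he
          exact hav i _ _ _ hi hi' z a (he ▸ hf a)
      have h2 := Finset.card_le_card h1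
      rw [Finset.card_image_of_injective _ hinj, Finset.card_erase_of_mem, Finset.card_erase_of_mem,
        Finset.card_univ, Finset.card_univ, Fintype.card_fin, Fintype.card_fin] at h2
      · have h3 : 0 < m := by
          rcases Nat.eq_zero_or_pos m with h0 | h0
          · subst h0
            exfalso
            exact hij (Fin.ext (by omega))
          · exact h0
        omega
      · exact Finset.mem_univ _
      · exact Finset.mem_erase.2 ⟨hij.symm, Finset.mem_univ _⟩
    obtain ⟨a, ha⟩ := hun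
    obtain ⟨c, hc, hg⟩ := B.meet _ ha j
    have h1 : ¬ c < d k b t z a := B.anti _ _ hg
    have h2 : ¬ d k b t z a < c := B.anti _ _ hg.symm
    cases c with
    | q n1 x1 h1' =>
      refine ⟨(n1, x1, h1'), a, ⟨hc, ?_⟩, hg⟩
      exact (inc_iff (m := m) (z := z) (a := a)).2 ⟨h1, h2⟩
    | d k1 b1 t1 z1 a1 =>
      exfalso
      obtain ⟨rfl, rfl, rfl, rfl⟩ := dd_of_incomp h1 h2
      exact hav j _ _ _ hj hj' _ _ hc
  choose y a hy hg using key
  refine Set.infinite_of_injective_forall_mem (f := y) ?_ hy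
  have hlt : ∀ z z' : ℤ, z < z' → y z ≠ y z' := by
    intro z z' hz he
    have h1 : B.g (d k b t z (a z)) = B.g (d k b t z' (a z')) := by
      rw [← hg z, ← hg z', he]
    refine B.anti _ _ h1 ?_
    rw [lt_dd]
    omega
  intro z z' he
  rcases lt_trichotomy z z' with h | h | h
  · exact absurd he (hlt _ _ h)
  · exact h
  · exact absurd he.symm (hlt _ _ h)

/-- A chain that has a point of least height `h` in level `n` keeps all other chains away from the fat
point `(n, h + 1, t)`, `t` at least the rank of the point. -/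
lemma no_other {i j : Fin (m + 1)} (hij : i ≠ j) {n x h t : ℕ} (hj : q n x h ∈ B.C j)
    (hmin : ∀ x' h', q n x' h' ∈ B.C j → h ≤ h') (ht : x + h ≤ t) {n' x' h' : ℕ}
    (hi : q n' x' h' ∈ B.C i) (hi' : Inc n (h + 1) t n' x' h') : False := by
  have hinf := B.infinite_of_avoid hij hi hi' hj (by rw [Inc]; omega)
  refine hinf (Set.Finite.subset (Finset.finite_toSet
    (Finset.range (n + 2) ×ˢ (Finset.range (2 * t + 1) ×ˢ Finset.range (2 * t + 1)) : Finset (ℕ × ℕ × ℕ))) ?_)
  rintro ⟨n1, x1, h1⟩ ⟨hc, hinc⟩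
  simp only at hc hinc
  simp only [Finset.coe_product, Finset.coe_range, Set.mem_prod, Set.mem_Iio]
  rw [Inc] at hinc
  rcases hinc with ⟨rfl, hinc⟩ | ⟨rfl, hinc⟩
  · rcases B.chain j _ hj _ hc with h2 | h2 | h2
    · cases h2
    · rw [lt_qq] at h2
      omega
    · rw [lt_qq] at h2
      omega
  · have := hmin _ _ hc
    omega

/-- The set of covered points of level `n`. -/
def K (n : ℕ) : Set (ℕ × ℕ) := {y | ∃ j, q n y.1 y.2 ∈ B.C j}

lemma exists_min {j : Fin (m + 1)} {n x h : ℕ} (hj : q n x h ∈ B.C j) :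
    ∃ x0 h0, q n x0 h0 ∈ B.C j ∧ h0 ≤ h ∧ ∀ x' h', q n x' h' ∈ B.C j → h0 ≤ h' := by
  classical
  have hex : ∃ h0 x0, q n x0 h0 ∈ B.C j := ⟨h, x, hj⟩
  obtain ⟨x0, hx0⟩ := Nat.find_spec hex
  refine ⟨x0, Nat.find hex, hx0, Nat.find_min' hex ⟨x, hj⟩, ?_⟩
  intro x' h' hc
  exact Nat.find_min' hex ⟨x', hc⟩

/-- Only one chain meets a level. -/
lemma one_chain {i j : Fin (m + 1)} {n x h x' h' : ℕ} (hi : q n x h ∈ B.C i) (hj : q n x' h' ∈ B.C j) :
    i = j := by
  by_contra hij
  obtain ⟨x1, h1, hc1, -, hm1⟩ := B.exists_min hi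
  obtain ⟨x2, h2, hc2, -, hm2⟩ := B.exists_min hj
  rcases le_total h1 h2 with hle | hle
  · refine B.no_other hij hc2 hm2 (t := max (x1 + h1) (x2 + h2)) (le_max_right _ _) hc1 ?_
    rw [Inc]
    have := le_max_left (x1 + h1) (x2 + h2)
    omega
  · refine B.no_other (Ne.symm hij) hc1 hm1 (t := max (x1 + h1) (x2 + h2)) (le_max_left _ _) hc2 ?_
    rw [Inc]
    have := le_max_right (x1 + h1) (x2 + h2)
    omega

lemma K_comp {n : ℕ} {y y' : ℕ × ℕ} (hy : y ∈ B.K n) (hy' : y' ∈ B.K n) :
    y = y' ∨ (y.1 + y.2 < y'.1 + y'.2 ∧ y.2 ≤ y'.2) ∨ (y'.1 + y'.2 < y.1 + y.2 ∧ y'.2 ≤ y.2) := by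
  obtain ⟨i, hi⟩ := hy
  obtain ⟨j, hj⟩ := hy'
  obtain rfl := B.one_chain hi hj
  rcases B.chain i _ hi _ hj with h | h | h
  · left
    obtain ⟨x, h⟩ := y
    obtain ⟨x', h'⟩ := y'
    simp only at h
    cases h
    rfl
  · rw [lt_qq] at h
    omega
  · rw [lt_qq] at h
    omega

lemma exists_rank {n : ℕ} (hinf : (B.K n).Infinite) (s : ℕ) : ∃ y ∈ B.K n, s < y.1 + y.2 := by
  by_contra hcon
  push Not at hcon
  refine hinf (Set.Finite.subset (Finset.finite_toSet
    (Finset.range (s + 1) ×ˢ Finset.range (s + 1) : Finset (ℕ × ℕ))) ?_)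
  intro y hy
  have := hcon y hy
  simp only [Finset.coe_product, Finset.coe_range, Set.mem_prod, Set.mem_Iio]
  omega

/-- Heights decrease from an infinite level to the next level above it. -/
lemma height_lt {n : ℕ} (hinf : (B.K (n + 1)).Infinite) {y u : ℕ × ℕ} (hy : y ∈ B.K (n + 1))
    (hu : u ∈ B.K n) : y.2 < u.2 := by
  by_contra hlt
  obtain ⟨j, hj⟩ := hu
  obtain ⟨x0, h0, hc, hle, hmin⟩ := B.exists_min hj
  obtain ⟨w, hw, hrank⟩ := B.exists_rank hinf (2 * (x0 + h0 + 1) + (y.1 + y.2))
  have hwy : y.2 ≤ w.2 := by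
    rcases B.K_comp hy hw with h | h | h
    · rw [h]
    · exact h.2
    · omega
  obtain ⟨i, hi⟩ := hw
  by_cases hij : i = j
  · subst hij
    rcases B.chain i _ hi _ hc with h | h | h
    · simp at h
    · rw [lt_qq] at h
      omega
    · rw [lt_qq] at h
      omega
  · refine B.no_other hij hc hmin (t := x0 + h0) le_rfl hi ?_
    rw [Inc]
    omega

/-- Tightness. -/
lemma tight {N : ℕ} (hinf : (B.K N).Infinite) {c0 : ℕ × ℕ} (hc0 : c0 ∈ B.K N)
    (σ : ℕ) (hσ : c0.1 + c0.2 < σ) :
    ∃ y ∈ B.K N, y.1 + y.2 = σ ∧ B.g (q N y.1 y.2) = B.g (q N (σ - c0.2) c0.2) := by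
  induction σ using Nat.strong_induction_on with
  | _ σ ih =>
    obtain ⟨i, hi⟩ := id hc0
    by_cases hcov : ∃ j, q N (σ - c0.2) c0.2 ∈ B.C j
    · exact ⟨(σ - c0.2, c0.2), hcov, by simp only; omega, rfl⟩
    · push Not at hcov
      obtain ⟨c, hc, hg⟩ := B.meet _ hcov i
      obtain ⟨w, hw, hws⟩ := B.exists_rank hinf σ
      have hwh : c0.2 ≤ w.2 := by
        rcases B.K_comp hc0 hw with h | h | h
        · rw [h]
        · exact h.2
        · omega
      obtain ⟨j, hj⟩ := id hw
      obtain rfl := B.one_chain hi hj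
      have n1 : ¬ c < q N (σ - c0.2) c0.2 := B.anti _ _ hg
      have n2 : ¬ q N (σ - c0.2) c0.2 < c := B.anti _ _ hg.symm
      have l0 : (q N c0.1 c0.2 : Pt m) < q N (σ - c0.2) c0.2 := by rw [lt_qq]; omega
      have l1 : (q N (σ - c0.2) c0.2 : Pt m) < q N w.1 w.2 := by rw [lt_qq]; omega
      have c1 : q N c0.1 c0.2 < c := by
        rcases B.chain i _ hi _ hc with h | h | h
        · exact absurd (h ▸ l0) n1
        · exact h
        · exact absurd (h.trans l0) n1
      have c2 : c < q N w.1 w.2 := by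
        rcases B.chain i _ hc _ hj with h | h | h
        · exact absurd (h ▸ l1) n2
        · exact h
        · exact absurd (l1.trans h) n2
      cases c with
      | d k b t z a =>
        exfalso
        rw [lt_qd] at c1
        rw [lt_dq] at c2
        omega
      | q n' x' h' =>
        have hn : n' = N := by
          rw [lt_qq] at c1 c2
          omega
        subst hn
        have hK : (x', h') ∈ B.K n' := ⟨i, hc⟩
        rw [lt_qq] at c1 n1 n2
        rcases lt_trichotomy (x' + h') σ with hlt | heq | hgt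
        · exfalso
          obtain ⟨y, hy, hyr, hyg⟩ := ih (x' + h') hlt (by omega)
          have hyeq : y = (x', h') := by
            rcases B.K_comp hy hK with h | h | h
            · exact h
            · simp only at h; omega
            · simp only at h; omega
          subst hyeq
          simp only at hyg
          rw [hg] at hyg
          refine B.anti _ _ hyg.symm ?_
          rw [lt_qq]
          omega
        · exact ⟨(x', h'), hK, heq, hg⟩
        · exfalso
          omega

/-- No class of a high point of level `n` meets an infinite `K (n + 1)`. -/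
lemma no_up {n : ℕ} (hinf : (B.K (n + 1)).Infinite) :
    ∃ h0, ∀ x h, h0 < h → ∀ y ∈ B.K (n + 1), B.g (q (n + 1) y.1 y.2) ≠ B.g (q n x h) := by
  classical
  have hex : ∃ s, ∃ y ∈ B.K (n + 1), y.1 + y.2 = s := by
    obtain ⟨y, hy⟩ := hinf.nonempty
    exact ⟨_, y, hy, rfl⟩
  obtain ⟨c0, hc0, hr0⟩ := Nat.find_spec hex
  refine ⟨c0.2, ?_⟩
  intro x h hh y hy hg
  have n1 : ¬ (q (n + 1) y.1 y.2 : Pt m) < q n x h := B.anti _ _ hg
  rw [lt_qq] at n1
  have hle : c0.1 + c0.2 ≤ y.1 + y.2 := by
    rw [hr0]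
    exact Nat.find_min' hex ⟨y, hy, rfl⟩
  have hlt : c0.1 + c0.2 < y.1 + y.2 := by
    rcases B.K_comp hc0 hy with h1 | h1 | h1
    · exfalso
      rw [h1] at hh
      omega
    · exact h1.1
    · omega
  obtain ⟨w, hw, hwr, hwg⟩ := B.tight hinf hc0 _ hlt
  have hwy : w = y := by
    rcases B.K_comp hw hy with h1 | h1 | h1
    · exact h1
    · omega
    · omega
  subst hwy
  rw [hg] at hwg
  refine B.anti _ _ hwg.symm ?_
  rw [lt_qq]
  omega

/-- Every level contains infinitely many covered points. -/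
lemma K_infinite (n : ℕ) : (B.K n).Infinite := by
  by_contra hfin
  rw [Set.not_infinite] at hfin
  -- a bound for the ranks in `K n`
  obtain ⟨b, hb⟩ : ∃ b, ∀ y ∈ B.K n, y.1 + y.2 < b := by
    obtain ⟨b, hb⟩ := (hfin.image (fun y : ℕ × ℕ => y.1 + y.2)).bddAbove
    refine ⟨b + 1, fun y hy => ?_⟩
    have := hb ⟨y, hy, rfl⟩
    simp only at this
    omega
  -- a bound for the heights seen from above
  obtain ⟨h0, hh0⟩ : ∃ h0, ∀ x h, h0 < h → ∀ y ∈ B.K (n + 1), B.g (q (n + 1) y.1 y.2) ≠ B.g (q n x h) := by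
    by_cases hinf : (B.K (n + 1)).Infinite
    · exact B.no_up hinf
    · rw [Set.not_infinite] at hinf
      obtain ⟨b', hb'⟩ := (hinf.image (fun y : ℕ × ℕ => y.2)).bddAbove
      refine ⟨b', ?_⟩
      intro x h hh y hy hg
      have h1 := hb' ⟨y, hy, rfl⟩
      simp only at h1
      refine B.anti _ _ hg ?_
      rw [lt_qq]
      omega
  have key : ∀ x : ℕ, ∃ n' x' h', n = n' + 1 ∧ (x', h') ∈ B.K n' ∧ 2 * (x' + h') < x + (b + h0 + 1) ∧
      B.g (q n' x' h') = B.g (q n x (b + h0 + 1)) := by
    intro x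
    have hun : ∀ j, q n x (b + h0 + 1) ∉ B.C j := by
      intro j hj
      have := hb (x, b + h0 + 1) ⟨j, hj⟩
      simp only at this
      omega
    obtain ⟨j, n', x', h', hc, hg⟩ := B.exists_q hun
    have n1 : ¬ (q n' x' h' : Pt m) < q n x (b + h0 + 1) := B.anti _ _ hg
    have n2 : ¬ (q n x (b + h0 + 1) : Pt m) < q n' x' h' := B.anti _ _ hg.symm
    rw [lt_qq] at n1 n2
    have hK : (x', h') ∈ B.K n' := ⟨j, hc⟩
    by_cases e1 : n' = n
    · exfalso
      subst e1
      have := hb _ hK
      simp only at this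
      omega
    · by_cases e2 : n' = n + 1
      · exfalso
        subst e2
        exact hh0 x (b + h0 + 1) (by omega) _ hK hg
      · exact ⟨n', x', h', by omega, hK, by omega, hg⟩
  choose n' x' h' hn hK hr hg using key
  have hinj : ∀ x y, x < y → x' x + h' x ≠ x' y + h' y := by
    intro x y hxy he
    have e1 : n' x = n' y := by
      have := hn x
      have := hn y
      omega
    have hKx := hK x
    rw [e1] at hKx
    have e2 : (x' x, h' x) = (x' y, h' y) := by
      rcases B.K_comp hKx (hK y) with h1 | h1 | h1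
      · exact h1
      · simp only at h1; omega
      · simp only at h1; omega
    have e3 : B.g (q n x (b + h0 + 1)) = B.g (q n y (b + h0 + 1)) := by
      rw [← hg x, ← hg y, e1]
      have := Prod.mk.inj e2
      rw [this.1, this.2]
    refine B.anti _ _ e3 ?_
    rw [lt_qq]
    omega
  have hcard := Finset.card_le_card_of_injOn (s := Finset.range (b + h0 + 5)) (t := Finset.range (b + h0 + 4))
    (fun x => x' x + h' x) (fun x hx => by
      have h1 := hr x
      have h2 := Finset.mem_range.1 (Finset.mem_coe.1 hx)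
      simp only [Finset.coe_range, Set.mem_Iio]
      omega) (fun x _ y _ he => by
      rcases lt_trichotomy x y with h | h | h
      · exact absurd he (hinj _ _ h)
      · exact h
      · exact absurd he.symm (hinj _ _ h))
  rw [Finset.card_range, Finset.card_range] at hcard
  omega

/-- The situation is impossible. -/
theorem false (B : Bad m ι) : False := by
  have h1 : ∀ n, ∃ y, y ∈ B.K n := fun n => (B.K_infinite n).nonempty
  choose y hy using h1
  have h2 : ∀ n, (y (n + 1)).2 < (y n).2 := fun n => B.height_lt (B.K_infinite _) (hy _) (hy _)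
  have h3 : ∀ n, (y n).2 + n ≤ (y 0).2 := by
    intro n
    induction n with
    | zero => simp
    | succ n ih =>
      have := h2 n
      omega
  have := h3 ((y 0).2 + 1)
  omega

end Bad

end Pool.Agent.Helper43.AK
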