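import Pool.Agent.Helper43.AK.Basic

/-!
# The poset is vacillating
-/

set_option autoImplicit false

namespace Pool.Agent.Helper43.AK

section generic

variable {P : Type} [PartialOrder P] {C : Set P}

/-- In a chain with a monotone block function and no increasing sequence in a block, increasing sequences
are unbounded. -/
lemma no_incr {f : P → ℕ} (hf : ∀ x ∈ C, ∀ y ∈ C, x ≤ y → f x ≤ f y)
    (hno : ∀ i : ℕ, ¬ ∃ s : ℕ → P, StrictMono s ∧ ∀ n, s n ∈ C ∧ f (s n) = i)
    {s : ℕ → P} (hs : StrictMono s) (hsC : ∀ n, s n ∈ C) {r : P} (hr : r ∈ C) (hsr : ∀ n, s n ≤ r) :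
    False := by
  classical
  have hex : ∃ v, ∃ n, f r - f (s n) = v := ⟨_, 0, rfl⟩
  obtain ⟨N, hN⟩ := Nat.find_spec hex
  refine hno (f (s N)) ⟨fun n => s (N + n), hs.comp (fun a b h => by simpa using h), ?_⟩
  intro n
  refine ⟨hsC _, ?_⟩
  have h1 : f (s N) ≤ f (s (N + n)) := hf _ (hsC _) _ (hsC _) (hs.monotone (Nat.le_add_right _ _))
  have h2 : f (s (N + n)) ≤ f r := hf _ (hsC _) _ hr (hsr _)
  have h3 : Nat.find hex ≤ f r - f (s (N + n)) := Nat.find_min' hex ⟨_, rfl⟩
  rw [← hN] at h3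
  show f (s (N + n)) = f (s N)
  omega

/-- The dual of `no_incr`. -/
lemma no_decr {f : P → ℕ} (hf : ∀ x ∈ C, ∀ y ∈ C, x ≤ y → f y ≤ f x)
    (hno : ∀ i : ℕ, ¬ ∃ s : ℕ → P, StrictAnti s ∧ ∀ n, s n ∈ C ∧ f (s n) = i)
    {s : ℕ → P} (hs : StrictAnti s) (hsC : ∀ n, s n ∈ C) {r : P} (hr : r ∈ C) (hsr : ∀ n, r ≤ s n) :
    False := by
  classical
  have hex : ∃ v, ∃ n, f r - f (s n) = v := ⟨_, 0, rfl⟩
  obtain ⟨N, hN⟩ := Nat.find_spec hex
  refine hno (f (s N)) ⟨fun n => s (N + n), hs.comp_strictMono (fun a b h => by simpa using h), ?_⟩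
  intro n
  refine ⟨hsC _, ?_⟩
  have h1 : f (s N) ≤ f (s (N + n)) := hf _ (hsC _) _ (hsC _) (hs.antitone (Nat.le_add_right _ _))
  have h2 : f (s (N + n)) ≤ f r := hf _ hr _ (hsC _) (hsr _)
  have h3 : Nat.find hex ≤ f r - f (s (N + n)) := Nat.find_min' hex ⟨_, rfl⟩
  rw [← hN] at h3
  show f (s (N + n)) = f (s N)
  omega

/-- An infinite part of a chain without increasing sequences contains a decreasing one. -/
lemma exists_anti (hC : ∀ p ∈ C, ∀ r ∈ C, p = r ∨ p < r ∨ r < p) {S : Set P} (hSC : S ⊆ C)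
    (hS : S.Infinite) (hno : ¬ ∃ s : ℕ → P, StrictMono s ∧ ∀ n, s n ∈ S) :
    ∃ s : ℕ → P, StrictAnti s ∧ ∀ n, s n ∈ S := by
  obtain ⟨g, hg⟩ := exists_increasing_or_nonincreasing_subseq (· < ·) (fun n => (hS.natEmbedding S n : P))
  rcases hg with hg | hg
  · exact absurd ⟨fun n => (hS.natEmbedding S (g n) : P), fun a b h => hg a b h, fun n => Subtype.mem _⟩ hno
  · refine ⟨fun n => (hS.natEmbedding S (g n) : P), fun a b h => ?_, fun n => Subtype.mem _⟩
    rcases hC _ (hSC (Subtype.mem (hS.natEmbedding S (g a)))) _ (hSC (Subtype.mem (hS.natEmbedding S (g b))))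
      with h1 | h1 | h1
    · exfalso
      have h2 := (hS.natEmbedding S).injective (Subtype.ext h1)
      exact h.ne (g.injective h2)
    · exact absurd h1 (hg a b h)
    · exact h1

/-- An infinite part of a chain without decreasing sequences contains an increasing one. -/
lemma exists_mono (hC : ∀ p ∈ C, ∀ r ∈ C, p = r ∨ p < r ∨ r < p) {S : Set P} (hSC : S ⊆ C)
    (hS : S.Infinite) (hno : ¬ ∃ s : ℕ → P, StrictAnti s ∧ ∀ n, s n ∈ S) :
    ∃ s : ℕ → P, StrictMono s ∧ ∀ n, s n ∈ S := by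
  by_contra hcon
  exact hno (exists_anti hC hSC hS hcon)

end generic

open Pt

variable {m : ℕ} {C : Set (Pt m)}

/-- The layer number of a point. -/
def zz : Pt m → ℤ
  | q _ _ _ => 0
  | d _ _ _ z _ => z

/-- By saturation, a chain passing through a fat point and bounded by it from the other side meets the layers. -/
lemma meets_layer (hC : ∀ p ∈ C, ∀ r ∈ C, p = r ∨ p < r ∨ r < p)
    (hsat : ∀ x, (∃ y ∈ C, y < x) → (∃ y ∈ C, x < y) → (∀ c ∈ C, c = x ∨ c < x ∨ x < c) → x ∈ C)
    {k b t : ℕ} {z : ℤ} {a : Fin m} (hp : d k b t z a ∈ C) (z' : ℤ)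
    (hlo : ∃ y ∈ C, y < d k b t z' a) (hhi : ∃ y ∈ C, d k b t z' a < y) :
    ∃ a', d k b t z' a' ∈ C := by
  by_contra hcon
  push Not at hcon
  refine hcon a (hsat _ hlo hhi ?_)
  intro c hc
  have h1 := hC _ hc _ hp
  cases c with
  | q n x h =>
    rcases h1 with h1 | h1 | h1
    · cases h1
    · right; left
      rw [lt_qd] at h1 ⊢
      exact h1
    · right; right
      rw [lt_dq] at h1 ⊢
      exact h1
  | d k1 b1 t1 z1 a1 =>
    by_cases hz : k1 = k ∧ b1 = b ∧ t1 = t ∧ z1 = z'
    · obtain ⟨rfl, rfl, rfl, rfl⟩ := hz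
      exact absurd hc (hcon a1)
    · right
      rw [lt_dd, lt_dd]
      omega

/-- No decreasing sequence in the levels `≤ N`. -/
lemma no_anti_q {s : ℕ → Pt m} (hs : StrictAnti s) (N : ℕ)
    (hq : ∀ i, ∃ n x h, s i = q n x h ∧ n ≤ N) : False := by
  choose n x h hsi hn using hq
  have hanti : StrictAnti (fun i => toLex (N - n i, x i + h i)) := by
    intro i j hij
    have h1 := hs hij
    rw [hsi i, hsi j, lt_qq] at h1
    have h2 := hn i
    have h3 := hn j
    show toLex (N - n j, x j + h j) < toLex (N - n i, x i + h i)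
    rw [Prod.Lex.toLex_lt_toLex]
    simp only
    omega
  exact not_strictAnti_of_wellFoundedLT _ hanti

/-- Type 1 is impossible. -/
theorem vac_one (hC : ∀ p ∈ C, ∀ r ∈ C, p = r ∨ p < r ∨ r < p)
    (hsat : ∀ x, (∃ y ∈ C, y < x) → (∃ y ∈ C, x < y) → (∀ c ∈ C, c = x ∨ c < x ∨ x < c) → x ∈ C)
    {f : Pt m → ℕ} (hf : ∀ x ∈ C, ∀ y ∈ C, x ≤ y → f x ≤ f y)
    (hinf : ∀ i : ℕ, Set.Infinite {x | x ∈ C ∧ f x = i})
    (hno : ∀ i : ℕ, ¬ ∃ s : ℕ → Pt m, StrictMono s ∧ ∀ n, s n ∈ C ∧ f (s n) = i) : False := by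
  have hlt : ∀ p ∈ C, ∀ r ∈ C, f p < f r → p < r := by
    intro p hp r hr h
    rcases hC p hp r hr with h1 | h1 | h1
    · rw [h1] at h; omega
    · exact h1
    · have := hf _ hr _ hp h1.le
      omega
  have hq : ∀ k b t z a, d k b t z a ∉ C := by
    intro k b t z a hp
    obtain ⟨s, hs, hsC⟩ := exists_anti (C := C) hC (S := {x | x ∈ C ∧ f x = f (d k b t z a) + 1})
      (fun x hx => hx.1) (hinf _) (hno _)
    have hps : ∀ n, d k b t z a < s n := fun n => hlt _ hp _ (hsC n).1 (by have := (hsC n).2; omega)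
    by_cases hr : ∃ n, ∀ z' a', s n ≠ d k b t z' a'
    · obtain ⟨n, hn⟩ := hr
      have hup : ∀ z' a', d k b t z' a' < s n := by
        intro z' a'
        have h1 := hps n
        cases hsn : s n with
        | q n x h =>
          rw [hsn, lt_dq] at h1
          rw [lt_dq]
          exact h1
        | d k1 b1 t1 z1 a1 =>
          rw [hsn, lt_dd] at h1
          rw [lt_dd]
          by_cases he : k1 = k ∧ b1 = b ∧ t1 = t
          · obtain ⟨rfl, rfl, rfl⟩ := he
            exact absurd hsn (hn z1 a1)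
          · omega
      have hlay : ∀ j : ℕ, ∃ a', d k b t (z + j) a' ∈ C := by
        intro j
        rcases Nat.eq_zero_or_pos j with h0 | h0
        · subst h0
          exact ⟨a, by simpa using hp⟩
        · refine meets_layer hC hsat hp _ ⟨_, hp, ?_⟩ ⟨_, (hsC n).1, hup _ _⟩
          rw [lt_dd]
          omega
      choose a' ha' using hlay
      refine no_incr hf hno (s := fun j => d k b t (z + j) (a' j)) ?_ ha' (hsC n).1 (fun j => (hup _ _).le)
      intro i j hij
      show d k b t (z + i) (a' i) < d k b t (z + j) (a' j)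
      rw [lt_dd]
      omega
    · push Not at hr
      choose z' a' hza using hr
      have h1 : ∀ n, z < z' n := by
        intro n
        have := hps n
        rw [hza n, lt_dd] at this
        omega
      have h2 : ∀ n, z' (n + 1) < z' n := by
        intro n
        have := hs (Nat.lt_succ_self n)
        rw [hza n, hza (n + 1), lt_dd] at this
        omega
      have h3 : ∀ n : ℕ, z' n + n ≤ z' 0 := by
        intro n
        induction n with
        | zero => simp
        | succ n ih =>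
          have := h2 n
          push_cast
          omega
      have h4 := h3 (z' 0 - z).toNat
      have h5 := h1 (z' 0 - z).toNat
      have h6 := h1 0
      omega
  obtain ⟨s, hs, hsC⟩ := exists_anti (C := C) hC (S := {x | x ∈ C ∧ f x = 1}) (fun x hx => hx.1) (hinf _) (hno _)
  obtain ⟨e, he, hfe⟩ := (hinf 0).nonempty
  cases e with
  | d k b t z a => exact hq _ _ _ _ _ he
  | q N x h =>
    refine no_anti_q hs N ?_
    intro i
    have h1 : q N x h < s i := hlt _ he _ (hsC i).1 (by have := (hsC i).2; omega)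
    cases hsi : s i with
    | d k b t z a => exact absurd (hsi ▸ (hsC i).1) (hq _ _ _ _ _)
    | q n' x' h' =>
      refine ⟨n', x', h', rfl, ?_⟩
      rw [hsi, lt_qq] at h1
      omega

/-- Type 2 is impossible. -/
theorem vac_two (hm : 0 < m) (hC : ∀ p ∈ C, ∀ r ∈ C, p = r ∨ p < r ∨ r < p)
    (hsat : ∀ x, (∃ y ∈ C, y < x) → (∃ y ∈ C, x < y) → (∀ c ∈ C, c = x ∨ c < x ∨ x < c) → x ∈ C)
    {f : Pt m → ℕ} (hf : ∀ x ∈ C, ∀ y ∈ C, x ≤ y → f y ≤ f x)
    (hinf : ∀ i : ℕ, Set.Infinite {x | x ∈ C ∧ f x = i})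
    (hno : ∀ i : ℕ, ¬ ∃ s : ℕ → Pt m, StrictAnti s ∧ ∀ n, s n ∈ C ∧ f (s n) = i) : False := by
  have hlt : ∀ p ∈ C, ∀ r ∈ C, f p < f r → r < p := by
    intro p hp r hr h
    rcases hC p hp r hr with h1 | h1 | h1
    · rw [h1] at h; omega
    · have := hf _ hp _ hr h1.le
      omega
    · exact h1
  have hq : ∀ k b t z a, d k b t z a ∉ C := by
    intro k b t z a hp
    obtain ⟨s, hs, hsC⟩ := exists_mono (C := C) hC (S := {x | x ∈ C ∧ f x = f (d k b t z a) + 1})
      (fun x hx => hx.1) (hinf _) (hno _)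
    have hps : ∀ n, s n < d k b t z a := fun n => hlt _ hp _ (hsC n).1 (by have := (hsC n).2; omega)
    by_cases hr : ∃ n, ∀ z' a', s n ≠ d k b t z' a'
    · obtain ⟨n, hn⟩ := hr
      have hup : ∀ z' a', s n < d k b t z' a' := by
        intro z' a'
        have h1 := hps n
        cases hsn : s n with
        | q n x h =>
          rw [hsn, lt_qd] at h1
          rw [lt_qd]
          exact h1
        | d k1 b1 t1 z1 a1 =>
          rw [hsn, lt_dd] at h1
          rw [lt_dd]
          by_cases he : k1 = k ∧ b1 = b ∧ t1 = t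
          · obtain ⟨rfl, rfl, rfl⟩ := he
            exact absurd hsn (hn z1 a1)
          · omega
      have hlay : ∀ j : ℕ, ∃ a', d k b t (z - j) a' ∈ C := by
        intro j
        rcases Nat.eq_zero_or_pos j with h0 | h0
        · subst h0
          exact ⟨a, by simpa using hp⟩
        · refine meets_layer hC hsat hp _ ⟨_, (hsC n).1, hup _ _⟩ ⟨_, hp, ?_⟩
          rw [lt_dd]
          omega
      choose a' ha' using hlay
      refine no_decr hf hno (s := fun j => d k b t (z - j) (a' j)) ?_ ha' (hsC n).1 (fun j => (hup _ _).le)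
      intro i j hij
      show d k b t (z - j) (a' j) < d k b t (z - i) (a' i)
      rw [lt_dd]
      omega
    · push Not at hr
      choose z' a' hza using hr
      have h1 : ∀ n, z' n < z := by
        intro n
        have := hps n
        rw [hza n, lt_dd] at this
        omega
      have h2 : ∀ n, z' n < z' (n + 1) := by
        intro n
        have := hs (Nat.lt_succ_self n)
        rw [hza n, hza (n + 1), lt_dd] at this
        omega
      have h3 : ∀ n : ℕ, z' 0 + n ≤ z' n := by
        intro n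
        induction n with
        | zero => simp
        | succ n ih =>
          have := h2 n
          push_cast
          omega
      have h4 := h3 (z - z' 0).toNat
      have h5 := h1 (z - z' 0).toNat
      have h6 := h1 0
      omega
  -- all points of `C` lie in the levels
  have hQ : ∀ c ∈ C, ∃ n x h, c = q n x h := by
    intro c hc
    cases c with
    | q n x h => exact ⟨n, x, h, rfl⟩
    | d k b t z a => exact absurd hc (hq _ _ _ _ _)
  -- the levels are unbounded
  have hunb : ∀ N, ∃ n x h, q n x h ∈ C ∧ N < n := by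
    intro N
    by_contra hcon
    push Not at hcon
    choose w hw using fun i => (hinf i).nonempty
    refine no_anti_q (s := w) (strictAnti_nat_of_succ_lt (fun i => ?_)) N ?_
    · exact hlt _ (hw i).1 _ (hw (i + 1)).1 (by rw [(hw i).2, (hw (i + 1)).2]; omega)
    · intro i
      obtain ⟨n, x, h, he⟩ := hQ _ (hw i).1
      exact ⟨n, x, h, he, hcon n x h (he ▸ (hw i).1)⟩
  obtain ⟨w0, hw0, hfw0⟩ := (hinf 0).nonempty
  obtain ⟨N0, x0, h0, rfl⟩ := hQ _ hw0
  -- every level from `N0` on is met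
  have hmeet : ∀ n, N0 ≤ n → ∃ x h, q n x h ∈ C := by
    intro n hn
    rcases Nat.eq_or_lt_of_le hn with rfl | hn
    · exact ⟨x0, h0, hw0⟩
    · by_contra hcon
      push Not at hcon
      obtain ⟨n1, x1, h1, hc1, hn1⟩ := hunb n
      refine hq (n - 1) 0 0 0 ⟨0, hm⟩ (hsat _ ⟨_, hc1, ?_⟩ ⟨_, hw0, ?_⟩ ?_)
      · rw [lt_qd]; omega
      · rw [lt_dq]; omega
      · intro c hc
        obtain ⟨n', x', h', rfl⟩ := hQ c hc
        right
        rw [lt_qd, lt_dq]
        by_cases he : n' = n
        · subst he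
          exact absurd hc (hcon _ _)
        · omega
  -- every level after `N0` is met in a finite set
  have hfin : ∀ n, N0 ≤ n → {y : ℕ × ℕ | q (n + 1) y.1 y.2 ∈ C}.Finite := by
    intro n hn
    by_contra hinf'
    classical
    have hex : ∃ g, ∃ x, q n x g ∈ C := by
      obtain ⟨x, h, hc⟩ := hmeet n hn
      exact ⟨h, x, hc⟩
    obtain ⟨xg, hxg⟩ := Nat.find_spec hex
    have hmin : ∀ x h, q n x h ∈ C → Nat.find hex ≤ h := fun x h hc => Nat.find_min' hex ⟨x, hc⟩
    generalize Nat.find hex = g at hxg hmin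
    have hrank : ∀ R, ∃ y : ℕ × ℕ, q (n + 1) y.1 y.2 ∈ C ∧ R < y.1 + y.2 := by
      intro R
      by_contra hcon
      push Not at hcon
      refine hinf' (Set.Finite.subset (Finset.finite_toSet
        (Finset.range (R + 1) ×ˢ Finset.range (R + 1) : Finset (ℕ × ℕ))) ?_)
      intro y hy
      have := hcon y hy
      simp only [Finset.coe_product, Finset.coe_range, Set.mem_prod, Set.mem_Iio]
      omega
    have hlow : ∀ x h, q (n + 1) x h ∈ C → h < g := by
      intro x h hc
      obtain ⟨y, hy, hyR⟩ := hrank (2 * (xg + g) + (x + h))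
      have h1 : h ≤ y.2 := by
        rcases hC _ hc _ hy with h1 | h1 | h1
        · cases h1; exact le_rfl
        · rw [lt_qq] at h1; omega
        · rw [lt_qq] at h1; omega
      rcases hC _ hy _ hxg with h2 | h2 | h2
      · simp at h2
      · rw [lt_qq] at h2; omega
      · rw [lt_qq] at h2; omega
    obtain ⟨y, hy, -⟩ := hrank 0
    have hg0 := hlow _ _ hy
    refine hq n (g + 1) 0 0 ⟨0, hm⟩ (hsat _ ⟨_, hy, ?_⟩ ⟨_, hxg, ?_⟩ ?_)
    · rw [lt_qd]; omega
    · rw [lt_dq]; omega
    · intro c hc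
      obtain ⟨n', x', h', rfl⟩ := hQ c hc
      right
      rw [lt_qd, lt_dq]
      by_cases he : n' = n
      · subst he
        have := hmin _ _ hc
        omega
      · by_cases he' : n' = n + 1
        · subst he'
          have := hlow _ _ hc
          omega
        · omega
  -- a block far down is finite
  obtain ⟨n1, x1, h1, hc1, hn1⟩ := hunb N0
  obtain ⟨e, he, hfe⟩ := (hinf (f (q n1 x1 h1) + 2)).nonempty
  obtain ⟨n2, x2, h2, rfl⟩ := hQ _ he
  refine hinf (f (q n1 x1 h1) + 1) ?_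
  have hcov : (⋃ n ∈ (Finset.range (n2 + 1) : Set ℕ), (fun y : ℕ × ℕ => (q (N0 + n + 1) y.1 y.2 : Pt m)) ''
      {y : ℕ × ℕ | q (N0 + n + 1) y.1 y.2 ∈ C}).Finite :=
    Set.Finite.biUnion (Finset.finite_toSet _) (fun n _ => (hfin (N0 + n) (Nat.le_add_right _ _)).image _)
  refine hcov.subset ?_
  rintro c ⟨hc, hfc⟩
  obtain ⟨n, x, h, rfl⟩ := hQ _ hc
  have l1 : q n x h < q n1 x1 h1 := hlt _ hc1 _ hc (by omega)
  have l2 : q n2 x2 h2 < q n x h := hlt _ hc _ he (by omega)
  rw [lt_qq] at l1 l2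
  simp only [Set.mem_iUnion]
  refine ⟨n - (N0 + 1), ?_, (x, h), ?_, ?_⟩
  · simp only [Finset.coe_range, Set.mem_Iio]; omega
  · show q (N0 + (n - (N0 + 1)) + 1) x h ∈ C
    have : N0 + (n - (N0 + 1)) + 1 = n := by omega
    rw [this]
    exact hc
  · show q (N0 + (n - (N0 + 1)) + 1) x h = q n x h
    have : N0 + (n - (N0 + 1)) + 1 = n := by omega
    rw [this]

end Pool.Agent.Helper43.AK
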