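import Pool.Agent.Helper43.AK.Core
import Pool.Agent.Helper43.AK.Vac

/-!
# The linear sum of the posets: one poset for all `k`
-/

set_option autoImplicit false

namespace Pool.Agent.Helper43.AK

open Pt

/-- The linear sum of the posets `Pt 1, Pt 2, ...`. -/
abbrev W : Type := Σₗ m : ℕ, Pt (m + 1)

/-- The embedding of the summand `m`. -/
def emb (m : ℕ) (p : Pt (m + 1)) : W := toLex ⟨m, p⟩

lemma exists_emb (w : W) : ∃ m p, w = emb m p := ⟨(ofLex w).1, (ofLex w).2, rfl⟩

lemma emb_lt_emb {m : ℕ} {p r : Pt (m + 1)} : emb m p < emb m r ↔ p < r := by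
  constructor
  · intro h
    rcases Sigma.Lex.lt_def.1 h with h | ⟨h, h'⟩
    · exact absurd h (lt_irrefl _)
    · exact h'
  · intro h
    exact Sigma.Lex.lt_def.2 (Or.inr ⟨rfl, h⟩)

lemma emb_lt_of_lt {m m' : ℕ} (h : m < m') (p : Pt (m + 1)) (r : Pt (m' + 1)) : emb m p < emb m' r := by
  rw [emb, emb, Sigma.Lex.lt_def]
  exact Or.inl h

lemma emb_inj {m : ℕ} {p r : Pt (m + 1)} (h : emb m p = emb m r) : p = r := by
  have := congrArg ofLex h
  simpa [emb] using this

instance : Countable W := (inferInstance : Countable (Σ m : ℕ, Pt (m + 1)))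

/-- Every antichain of the sum is finite. -/
theorem finite_antichain {A : Set W} (hA : IsAntichain (· ≤ ·) A) : A.Finite := by
  rcases Set.eq_empty_or_nonempty A with rfl | ⟨w, hw⟩
  · exact Set.finite_empty
  · obtain ⟨m, p, rfl⟩ := exists_emb w
    have hanti : IsAntichain (· ≤ ·) {r | emb m r ∈ A} := by
      intro r hr s hs hrs hle
      have hlt : r < s := lt_of_le_of_ne hle hrs
      have := emb_lt_emb.2 hlt
      exact hA hr hs this.ne this.le
    refine ((finite_of_antichain hanti).image (emb m)).subset ?_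
    intro v hv
    obtain ⟨m', r, rfl⟩ := exists_emb v
    rcases lt_trichotomy m m' with h | h | h
    · have := emb_lt_of_lt h p r
      exact absurd this.le (hA hw hv this.ne)
    · subst h
      exact ⟨r, hv, rfl⟩
    · have := emb_lt_of_lt h r p
      exact absurd this.le (hA hv hw this.ne)

section generic

variable {P : Type}

/-- From the property `AK_k`, in the form with a class function, to the form used here. -/
lemma meets_all {k : ℕ} {ι : Type} {C : Fin k → Set P}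
    (hdis : ∀ i j, i ≠ j → Disjoint (C i) (C j)) {g : P → ι}
    (hmeet : ∀ i, min (Set.encard {x | g x = i}) (k : ℕ∞) ≤
      Set.encard {j : Fin k | (C j ∩ {x | g x = i}).Nonempty})
    (p : P) (hp : ∀ j, p ∉ C j) (j : Fin k) : ∃ c ∈ C j, g c = g p := by
  by_contra hcon
  push Not at hcon
  have h1 := hmeet (g p)
  set J : Set (Fin k) := {j | (C j ∩ {x | g x = g p}).Nonempty} with hJ
  have hjJ : j ∉ J := by
    rintro ⟨c, hc, hg⟩
    exact hcon c hc hg
  have hJk : J.encard < k := by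
    have h2 : J ⊂ Set.univ := Set.ssubset_univ_iff.2 (fun h => hjJ (h ▸ Set.mem_univ j))
    have h3 := Set.Finite.encard_lt_encard (Set.toFinite J) h2
    simpa [Set.encard_univ] using h3
  have hle : Set.encard {x | g x = g p} ≤ J.encard := by
    rcases min_le_iff.1 (le_refl (min (Set.encard {x | g x = g p}) (k : ℕ∞))) with h | h
    · by_contra hlt
      push Not at hlt
      exact absurd h1 (not_le.2 (lt_min hlt hJk))
    · by_contra hlt
      push Not at hlt
      exact absurd h1 (not_le.2 (lt_min hlt hJk))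
  choose c hc using fun j : J => j.2
  have hcinj : Function.Injective c := by
    intro i l hil
    by_contra hne
    have hne' : (i : Fin k) ≠ l := fun h => hne (Subtype.ext h)
    exact Set.disjoint_left.1 (hdis _ _ hne') (hc i).1 (hil ▸ (hc l).1)
  have hfinA : {x | g x = g p}.Finite := Set.finite_of_encard_le_coe (hle.trans hJk.le)
  have hsub : Set.range c ⊆ {x | g x = g p} \ {p} := by
    rintro _ ⟨i, rfl⟩
    refine ⟨(hc i).2, ?_⟩
    intro h
    exact hp i (h ▸ (hc i).1)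
  have h4 : J.encard ≤ ({x | g x = g p} \ {p}).encard := by
    calc J.encard = (Set.range c).encard := by
          rw [← Set.image_univ, hcinj.encard_image, Set.encard_univ, Set.encard]
      _ ≤ _ := Set.encard_le_encard hsub
  have h5 : ({x | g x = g p} \ {p}).encard < {x | g x = g p}.encard :=
    Set.Finite.encard_lt_encard (hfinA.subset Set.sdiff_subset)
      (Set.sdiff_singleton_ssubset.2 rfl)
  exact absurd (h5.trans_le hle) (not_lt.2 h4)

end generic

/-- The sum fails `AK_k` for every `k ≥ 2` (form with a class function). -/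
theorem not_AK {k : ℕ} (hk : 2 ≤ k) {ι : Type} {C : Fin k → Set W} (hC : ∀ j, IsChain (· ≤ ·) (C j))
    (hdis : ∀ i j, i ≠ j → Disjoint (C i) (C j)) {g : W → ι}
    (hanti : ∀ i, IsAntichain (· ≤ ·) {x | g x = i})
    (hmeet : ∀ i, min (Set.encard {x | g x = i}) (k : ℕ∞) ≤
      Set.encard {j : Fin k | (C j ∩ {x | g x = i}).Nonempty}) : False := by
  obtain ⟨m, rfl⟩ : ∃ m, k = m + 2 := ⟨k - 2, by omega⟩
  have hno : ∀ x y, g x = g y → ¬ x < y := by
    intro x y hxy hlt
    exact hanti (g y) (show x ∈ {x | g x = g y} from hxy) (show y ∈ {x | g x = g y} from rfl) hlt.ne hlt.le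
  refine Bad.false (m := m + 1) (ι := ι)
    { C := fun j => {p | emb m p ∈ C j}
      g := fun p => g (emb m p)
      chain := ?_
      disj := ?_
      anti := ?_
      meet := ?_ }
  · intro j p hp r hr
    by_cases he : emb m p = emb m r
    · exact Or.inl (emb_inj he)
    · rcases hC j hp hr he with h | h
      · exact Or.inr (Or.inl (emb_lt_emb.1 (lt_of_le_of_ne h he)))
      · exact Or.inr (Or.inr (emb_lt_emb.1 (lt_of_le_of_ne h (Ne.symm he))))
  · intro i j p hi hj
    by_contra hij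
    exact Set.disjoint_left.1 (hdis i j hij) hi hj
  · intro p r hg hlt
    exact hno _ _ hg (emb_lt_emb.2 hlt)
  · intro p hp j
    obtain ⟨c, hc, hg⟩ := meets_all hdis hmeet (emb m p) hp j
    obtain ⟨m', r, rfl⟩ := exists_emb c
    rcases lt_trichotomy m m' with h | h | h
    · exact absurd (emb_lt_of_lt h p r) (hno _ _ hg.symm)
    · subst h
      exact ⟨r, hc, hg⟩
    · exact absurd (emb_lt_of_lt h r p) (hno _ _ hg)

lemma exists_gt_pt {m : ℕ} (p : Pt m) : ∃ r, p < r := by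
  cases p with
  | q n x h => exact ⟨q n (x + 1) h, by rw [lt_qq]; omega⟩
  | d k b t z a => exact ⟨d k b t (z + 1) a, by rw [lt_dd]; omega⟩

lemma exists_lt_pt {m : ℕ} (p : Pt m) : ∃ r, r < p := by
  cases p with
  | q n x h => exact ⟨q (n + 2) x h, by rw [lt_qq]; omega⟩
  | d k b t z a => exact ⟨d k b t (z - 1) a, by rw [lt_dd]; omega⟩

section vac

variable {C : Set W}

/-- A saturated chain in the sum with a point above a summand has no greatest point in the summand. -/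
lemma exists_seq_up (hC : ∀ p ∈ C, ∀ r ∈ C, p = r ∨ p < r ∨ r < p)
    (hsat : ∀ x, (∃ y ∈ C, y < x) → (∃ y ∈ C, x < y) → (∀ c ∈ C, c = x ∨ c < x ∨ x < c) → x ∈ C)
    {m m' : ℕ} (hmm : m < m') {p : Pt (m + 1)} {r : Pt (m' + 1)} (hp : emb m p ∈ C) (hr : emb m' r ∈ C) :
    ∃ s : ℕ → W, StrictMono s ∧ (∀ n, s n ∈ C) ∧ ∀ n, s n < emb m' r := by
  have key : ∀ p', emb m p' ∈ C → ∃ p'', emb m p'' ∈ C ∧ p' < p'' := by
    intro p' hp'
    by_contra hcon
    push Not at hcon
    obtain ⟨p1, hp1⟩ := exists_gt_pt p'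
    refine hcon p1 (hsat _ ⟨_, hp', emb_lt_emb.2 hp1⟩ ⟨_, hr, emb_lt_of_lt hmm _ _⟩ ?_) hp1
    intro c hc
    obtain ⟨l, c', rfl⟩ := exists_emb c
    rcases lt_trichotomy l m with h | h | h
    · exact Or.inr (Or.inl (emb_lt_of_lt h _ _))
    · subst h
      rcases hC _ hc _ hp' with h1 | h1 | h1
      · right; left
        rw [h1]
        exact emb_lt_emb.2 hp1
      · exact Or.inr (Or.inl (h1.trans (emb_lt_emb.2 hp1)))
      · exact absurd (emb_lt_emb.1 h1) (hcon _ hc)
    · exact Or.inr (Or.inr (emb_lt_of_lt h _ _))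
  choose! F hF1 hF2 using key
  have hin : ∀ n : ℕ, emb m (F^[n] p) ∈ C := by
    intro n
    induction n with
    | zero => exact hp
    | succ n ih =>
      rw [Function.iterate_succ_apply']
      exact hF1 _ ih
  refine ⟨fun n => emb m (F^[n] p), strictMono_nat_of_lt_succ (fun n => ?_), hin, fun n => emb_lt_of_lt hmm _ _⟩
  rw [Function.iterate_succ_apply']
  exact emb_lt_emb.2 (hF2 _ (hin n))

/-- The dual of `exists_seq_up`. -/
lemma exists_seq_down (hC : ∀ p ∈ C, ∀ r ∈ C, p = r ∨ p < r ∨ r < p)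
    (hsat : ∀ x, (∃ y ∈ C, y < x) → (∃ y ∈ C, x < y) → (∀ c ∈ C, c = x ∨ c < x ∨ x < c) → x ∈ C)
    {m m' : ℕ} (hmm : m' < m) {p : Pt (m + 1)} {r : Pt (m' + 1)} (hp : emb m p ∈ C) (hr : emb m' r ∈ C) :
    ∃ s : ℕ → W, StrictAnti s ∧ (∀ n, s n ∈ C) ∧ ∀ n, emb m' r < s n := by
  have key : ∀ p', emb m p' ∈ C → ∃ p'', emb m p'' ∈ C ∧ p'' < p' := by
    intro p' hp'
    by_contra hcon
    push Not at hcon
    obtain ⟨p1, hp1⟩ := exists_lt_pt p'
    refine hcon p1 (hsat _ ⟨_, hr, emb_lt_of_lt hmm _ _⟩ ⟨_, hp', emb_lt_emb.2 hp1⟩ ?_) hp1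
    intro c hc
    obtain ⟨l, c', rfl⟩ := exists_emb c
    rcases lt_trichotomy l m with h | h | h
    · exact Or.inr (Or.inl (emb_lt_of_lt h _ _))
    · subst h
      rcases hC _ hc _ hp' with h1 | h1 | h1
      · right; right
        rw [h1]
        exact emb_lt_emb.2 hp1
      · exact absurd (emb_lt_emb.1 h1) (hcon _ hc)
      · exact Or.inr (Or.inr ((emb_lt_emb.2 hp1).trans h1))
    · exact Or.inr (Or.inr (emb_lt_of_lt h _ _))
  choose! F hF1 hF2 using key
  have hin : ∀ n : ℕ, emb m (F^[n] p) ∈ C := by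
    intro n
    induction n with
    | zero => exact hp
    | succ n ih =>
      rw [Function.iterate_succ_apply']
      exact hF1 _ ih
  refine ⟨fun n => emb m (F^[n] p), strictAnti_nat_of_succ_lt (fun n => ?_), hin, fun n => emb_lt_of_lt hmm _ _⟩
  rw [Function.iterate_succ_apply']
  exact emb_lt_emb.2 (hF2 _ (hin n))

/-- The sum is vacillating (form with a block function). -/
theorem vacillating_aux (hC : ∀ p ∈ C, ∀ r ∈ C, p = r ∨ p < r ∨ r < p)
    (hsat : ∀ x, (∃ y ∈ C, y < x) → (∃ y ∈ C, x < y) → (∀ c ∈ C, c = x ∨ c < x ∨ x < c) → x ∈ C)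
    (f : W → ℕ)
    (hf : ((∀ x ∈ C, ∀ y ∈ C, x ≤ y → f x ≤ f y) ∧ ∀ i : ℕ, Set.Infinite {x | x ∈ C ∧ f x = i} ∧
              ¬ ∃ s : ℕ → W, StrictMono s ∧ ∀ n, s n ∈ C ∧ f (s n) = i) ∨
          ((∀ x ∈ C, ∀ y ∈ C, x ≤ y → f y ≤ f x) ∧ ∀ i : ℕ, Set.Infinite {x | x ∈ C ∧ f x = i} ∧
              ¬ ∃ s : ℕ → W, StrictAnti s ∧ ∀ n, s n ∈ C ∧ f (s n) = i)) : False := by
  have hne : C.Nonempty := by
    rcases hf with ⟨-, h⟩ | ⟨-, h⟩
    · obtain ⟨x, hx⟩ := (h 0).1.nonempty
      exact ⟨x, hx.1⟩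
    · obtain ⟨x, hx⟩ := (h 0).1.nonempty
      exact ⟨x, hx.1⟩
  obtain ⟨c0, hc0⟩ := hne
  obtain ⟨m, p0, rfl⟩ := exists_emb c0
  -- all points of `C` lie in one summand
  have hone : ∀ c ∈ C, ∃ p, c = emb m p := by
    have hno2 : ∀ l l' (p : Pt (l + 1)) (r : Pt (l' + 1)), l < l' → emb l p ∈ C → emb l' r ∈ C → False := by
      intro l l' p r hll hp hr
      rcases hf with ⟨h1, h2⟩ | ⟨h1, h2⟩
      · obtain ⟨s, hs, hsC, hsr⟩ := exists_seq_up hC hsat hll hp hr
        exact no_incr h1 (fun i => (h2 i).2) hs hsC hr (fun n => (hsr n).le)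
      · obtain ⟨s, hs, hsC, hsr⟩ := exists_seq_down hC hsat hll hr hp
        exact no_decr h1 (fun i => (h2 i).2) hs hsC hp (fun n => (hsr n).le)
    intro c hc
    obtain ⟨l, p, rfl⟩ := exists_emb c
    rcases lt_trichotomy l m with h | h | h
    · exact absurd hc0 (fun h0 => hno2 _ _ _ _ h hc h0)
    · subst h
      exact ⟨p, rfl⟩
    · exact absurd hc (fun h1 => hno2 _ _ _ _ h hc0 h1)
  -- the chain in the summand
  have hC' : ∀ p ∈ {p | emb m p ∈ C}, ∀ r ∈ {p | emb m p ∈ C}, p = r ∨ p < r ∨ r < p := by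
    intro p hp r hr
    rcases hC _ hp _ hr with h | h | h
    · exact Or.inl (emb_inj h)
    · exact Or.inr (Or.inl (emb_lt_emb.1 h))
    · exact Or.inr (Or.inr (emb_lt_emb.1 h))
  have hsat' : ∀ x, (∃ y ∈ {p | emb m p ∈ C}, y < x) → (∃ y ∈ {p | emb m p ∈ C}, x < y) →
      (∀ c ∈ {p | emb m p ∈ C}, c = x ∨ c < x ∨ x < c) → x ∈ {p | emb m p ∈ C} := by
    rintro x ⟨y, hy, hyx⟩ ⟨w, hw, hxw⟩ hall
    refine hsat _ ⟨_, hy, emb_lt_emb.2 hyx⟩ ⟨_, hw, emb_lt_emb.2 hxw⟩ ?_
    intro c hc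
    obtain ⟨p, rfl⟩ := hone c hc
    rcases hall p hc with h | h | h
    · exact Or.inl (by rw [h])
    · exact Or.inr (Or.inl (emb_lt_emb.2 h))
    · exact Or.inr (Or.inr (emb_lt_emb.2 h))
  have hle : ∀ p r : Pt (m + 1), p ≤ r → emb m p ≤ emb m r := by
    intro p r h
    rcases h.lt_or_eq with h | h
    · exact (emb_lt_emb.2 h).le
    · rw [h]
  have hinf' : ∀ i, Set.Infinite {x | x ∈ C ∧ f x = i} →
      Set.Infinite {p | p ∈ {p | emb m p ∈ C} ∧ f (emb m p) = i} := by
    intro i h hfin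
    refine h ((hfin.image (emb m)).subset ?_)
    rintro x ⟨hx, hfx⟩
    obtain ⟨p, rfl⟩ := hone x hx
    exact ⟨p, ⟨hx, hfx⟩, rfl⟩
  rcases hf with ⟨h1, h2⟩ | ⟨h1, h2⟩
  · refine vac_one (C := {p | emb m p ∈ C}) hC' hsat' (f := fun p => f (emb m p)) ?_ (fun i => hinf' i (h2 i).1) ?_
    · intro x hx y hy hxy
      exact h1 _ hx _ hy (hle _ _ hxy)
    · rintro i ⟨s, hs, hsC⟩
      exact (h2 i).2 ⟨fun n => emb m (s n), fun a b hab => emb_lt_emb.2 (hs hab), hsC⟩
  · refine vac_two (Nat.succ_pos m) (C := {p | emb m p ∈ C}) hC' hsat' (f := fun p => f (emb m p)) ?_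
      (fun i => hinf' i (h2 i).1) ?_
    · intro x hx y hy hxy
      exact h1 _ hx _ hy (hle _ _ hxy)
    · rintro i ⟨s, hs, hsC⟩
      exact (h2 i).2 ⟨fun n => emb m (s n), fun a b hab => emb_lt_emb.2 (hs hab), hsC⟩

end vac

end Pool.Agent.Helper43.AK
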